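import Pool.Agent.W973.IP.Defs

/-! Task IP-FALSE: false sentences are `Bad` for small `e`. -/

set_option autoImplicit false

namespace Pool.Agent.W563.IP

open Pool.Agent.W973.IP MvPolynomial

theorem falseT (h1 : S_DER) (h2 : S_UCO) : S_FALSE := by
  intro n P a hP hz c hc
  obtain ⟨U, hU⟩ := h2 n P a hP c 1 hc
  set O : Set (ℝ × Vec n) := {p | ∃ w : Vec n, G P a c p.1 p.2 w < c} with hO
  have hopen : IsOpen O := by
    have h3 : O = ⋃ w : Vec n, {p : ℝ × Vec n | G P a c p.1 p.2 w < c} := by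
      ext p
      simp only [hO, Set.mem_iUnion, Set.mem_ofPred_eq]
    rw [h3]
    refine isOpen_iUnion fun w => ?_
    have h5 : Continuous fun p : ℝ × Vec n => ((c, p.1, p.2, w) : ℝ × ℝ × Vec n × Vec n) := by
      fun_prop
    have h6 := (h1 n P a).1
    generalize G P a = g at h6 ⊢
    have h4 : Continuous fun p : ℝ × Vec n => g c p.1 p.2 w := h6.comp h5
    exact isOpen_lt h4 continuous_const
  have hsub : ({0} : Set ℝ) ×ˢ (Metric.closedBall (0 : Vec n) U) ⊆ O := by
    rintro ⟨e, u⟩ ⟨he, -⟩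
    have he' : e = 0 := he
    obtain ⟨w, hw⟩ := hz u
    refine ⟨w, ?_⟩
    simp only
    rw [he']
    unfold G
    rw [hw]
    have h5 : 0 ≤ ∑ l, u l ^ 6 := Finset.sum_nonneg fun l _ => by positivity
    have h6 : 0 ≤ c * ∑ l, u l ^ 6 := mul_nonneg hc.le h5
    linarith
  obtain ⟨s, t, hs, -, hs0, ht, hst⟩ := generalized_tube_lemma (isCompact_singleton (x := (0 : ℝ)))
    (isCompact_closedBall (0 : Vec n) U) hopen hsub
  obtain ⟨δ, hδ, hball⟩ := Metric.isOpen_iff.1 hs 0 (hs0 rfl)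
  refine ⟨min δ 1, lt_min hδ one_pos, ?_⟩
  intro e he he' u
  by_cases hu : U ≤ ‖u‖
  · exact ⟨0, (hU c e u le_rfl he.le (he'.le.trans (min_le_right _ _)) hu).trans hc⟩
  · have h7 : e ∈ s := by
      refine hball ?_
      rw [Metric.mem_ball, dist_zero_right, Real.norm_of_nonneg he.le]
      exact he'.trans_le (min_le_left _ _)
    have h8 : u ∈ t := by
      refine ht ?_
      rw [Metric.mem_closedBall, dist_zero_right]
      exact (not_le.1 hu).le
    have h9 : ((e, u) : ℝ × Vec n) ∈ O := hst (Set.mk_mem_prod h7 h8)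
    rw [hO, Set.mem_ofPred_eq] at h9
    exact h9

end Pool.Agent.W563.IP
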